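import Pool.Agent.Y638.WF.Lower
import Pool.Agent.Y638.RF.Lower

set_option autoImplicit false

/-! # Queries for real formulas are queries for formulas over words -/

namespace Pool.Agent.Q330.WF

open Finset

theorem asks_of_real {ι : Type} {D : ι → Type} [DecidableEq ι] {T : Type} [Fintype T] {K : ℕ}
    {δ : ℝ} {P : (∀ i, D i) → Prop} {f : (∀ i, D i) → Bool} {i : ι}
    (h : Pool.Agent.Y638.RF.Asks T K δ P f i) :
    Pool.Agent.Y638.WF.Asks T δ (fun _ => True) f i := by
  obtain ⟨A, r, Q, R, -, h2, h3, -, h5⟩ := h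
  exact ⟨(A : Set (D i)), r, Q, R, h2, h3, fun _ _ _ => trivial, h5⟩

/-- logarithms of small numbers -/
theorem logb_two_mul {V : ℕ} (hV : 1 ≤ V) :
    Real.logb 2 (2 * (V : ℝ) + 1) ≤ Real.logb 2 V + 2 := by
  have h1 : (1 : ℝ) ≤ V := by exact_mod_cast hV
  have h2 : (2 * (V : ℝ) + 1) ≤ V * 2 ^ 2 := by linarith
  refine (Real.logb_le_logb_of_le (by norm_num : (1 : ℝ) < 2) (by positivity) h2).trans ?_
  rw [Real.logb_mul (by positivity) (by norm_num), Real.logb_pow,
    Real.logb_self_eq_one (by norm_num)]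
  norm_num

end Pool.Agent.Q330.WF
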