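import Pool.Agent.Q330.WF.Gen
import Pool.Agent.Y638.RF.Tri

set_option autoImplicit false

/-! # Triangles in lists of edges and (min, max) formulas over machine words -/

namespace Pool.Agent.Q330.WF.Tri

open Finset
open Pool.Agent.TH697.Form (IsProb)
open Pool.Agent.TH697.Row
open Pool.Agent.TH457.Ary.Tri
open Pool.Agent.TH457.Ary.Sat (exists_k logb_four_pow)
open Pool.Agent.Y638.RF.Tri (asks logb_m)
open Pool.Agent.Y638.WF

variable {m k c w v : ℕ}

/-- the arithmetic -/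
theorem arith {m k c w v N l L g s : ℝ} (hm : 1000 ≤ m) (hk : 4 ≤ k) (hc : 1 ≤ c) (hw : 1 ≤ w)
    (hv : 1 ≤ v) (hN : m * k / 2 ≤ N) (hl : l ≤ 5 / 2 * k) (hl0 : 1 ≤ l) (hs : 0 ≤ s)
    (hL : L ≤ v * l + 2) (hg : g ≤ 3 * l)
    (h : m * ((49 / 600 - 0) * N - g) ≤ w * (1 + 12 * L + 4 * g + 2 * (w - 1) * (c * l)) * s) :
    m ^ 2 ≤ 2800 * w * (v + c * w) * s := by
  have h0 : 1000 * k ≤ m * k := mul_le_mul_of_nonneg_right hm (by linarith)
  have h1 : m * k / 31 ≤ (49 / 600 - 0) * N - g := by linarith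
  have h2 : m * (m * k / 31) ≤ m * ((49 / 600 - 0) * N - g) :=
    mul_le_mul_of_nonneg_left h1 (by linarith)
  have h3 : w * (1 + 12 * L + 4 * g + 2 * (w - 1) * (c * l)) ≤ w * (90 * k * (v + c * w)) := by
    apply mul_le_mul_of_nonneg_left _ (by linarith)
    have h4 : (w - 1) * (c * l) ≤ (w - 1) * (c * (5 / 2 * k)) :=
      mul_le_mul_of_nonneg_left (mul_le_mul_of_nonneg_left hl (by linarith)) (by linarith)
    have h5 : v * l ≤ v * (5 / 2 * k) := mul_le_mul_of_nonneg_left hl (by linarith)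
    have h6 : k ≤ v * k := by nlinarith
    have h7 : k ≤ c * k := by nlinarith
    have h8 : c * k ≤ c * k * w := by
      have : 0 ≤ c * k := by positivity
      nlinarith
    have h9 : 1 ≤ k := by linarith
    have e : 90 * k * (v + c * w) = 90 * (v * k) + 90 * (c * k * w) := by ring
    rw [e]
    have e2 : 2 * (w - 1) * (c * l) = 2 * ((w - 1) * (c * l)) := by ring
    have e3 : (w - 1) * (c * (5 / 2 * k)) = 5 / 2 * (c * k * w) - 5 / 2 * (c * k) := by ring
    rw [e2]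
    rw [e3] at h4
    linarith
  have h4 := mul_le_mul_of_nonneg_right h3 hs
  have h5 : k * m ^ 2 ≤ k * (2800 * w * (v + c * w) * s) := by
    have e1 : m * (m * k / 31) = k * m ^ 2 / 31 := by ring
    have e2 : w * (90 * k * (v + c * w)) * s = k * (2790 * w * (v + c * w) * s) / 31 := by ring
    rw [e1] at h2
    rw [e2] at h4
    have h8 : 0 ≤ k * (w * (v + c * w) * s) := by positivity
    nlinarith
  exact le_of_mul_le_mul_left h5 (by linarith)

theorem program_bound (hm : 1000 ≤ m) (hc : 1 ≤ c) (hw : 1 ≤ w) (hv : 1 ≤ v) {Ω : Type}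
    [Fintype Ω] (μ : Ω → ℝ) (hμ : IsProb μ) (s : ℕ)
    (B : Ω → Program (Fin m) (fun _ => Edge (2 * m)) w (m ^ c) (m ^ v) (fun _ => True) s)
    (hB : ApproximatesOn μ (fun ω => (B ω).eval) (fun _ => True) triangle) :
    (m : ℝ) ^ 2 ≤ 2800 * w * (v + c * w) * s := by
  classical
  have hw' : (1 : ℝ) ≤ w := by exact_mod_cast hw
  have hc' : (1 : ℝ) ≤ c := by exact_mod_cast hc
  have hv' : (1 : ℝ) ≤ v := by exact_mod_cast hv
  have hs0 : (0 : ℝ) ≤ s := Nat.cast_nonneg s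
  by_cases hsm : m ^ 2 ≤ s
  · have h1 : (m : ℝ) ^ 2 ≤ s := by exact_mod_cast hsm
    have h3 : (0 : ℝ) ≤ c * w := by positivity
    have h2 : (1 : ℝ) ≤ w * (v + c * w) := one_le_mul_of_one_le_of_one_le hw' (by linarith)
    nlinarith
  obtain ⟨k, hk, hk1, hk2⟩ := exists_k (m := m) (by omega)
  have h := program_lower (D := fun _ : Fin m => Edge (2 * m)) μ hμ (m ^ v) s (fun _ => True) B
    triangle hB (Nat.one_le_pow _ _ (by omega)) (Nat.one_le_pow _ _ (by omega)) hw 0 univ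
    (T := Fin (M m k) × Fin k) (fun p _ => asks_of_real (asks (by omega) hk1 p))
  rw [card_univ (α := Fin m), Fintype.card_fin, Nat.cast_pow m c, Real.logb_pow] at h
  have hg : Real.logb 2 ((s : ℝ) + 2) ≤ 3 * Real.logb 2 m := by
    have h6 : s + 2 ≤ m ^ 3 := by
      have h8 : 1000 * m ^ 2 ≤ m * m ^ 2 := Nat.mul_le_mul_right _ hm
      have h9 : 1 ≤ m ^ 2 := Nat.one_le_pow _ _ (by omega)
      have e : m ^ 3 = m * m ^ 2 := by ring
      omega
    have h7 : (s : ℝ) + 2 ≤ (m : ℝ) ^ 3 := by exact_mod_cast h6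
    refine (Real.logb_le_logb_of_le (by norm_num : (1 : ℝ) < 2) (by positivity) h7).trans ?_
    rw [Real.logb_pow]
    norm_num
  have hL : Real.logb 2 (2 * ((m ^ v : ℕ) : ℝ) + 1) ≤ v * Real.logb 2 m + 2 := by
    refine (logb_two_mul (Nat.one_le_pow _ _ (by omega))).trans ?_
    rw [Nat.cast_pow, Real.logb_pow]
  have hl0 : 1 ≤ Real.logb 2 (m : ℝ) := by
    rw [Real.le_logb_iff_rpow_le (by norm_num) (by positivity)]
    have : (1000 : ℝ) ≤ m := by exact_mod_cast hm
    norm_num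
    linarith
  exact arith (N := ((Fintype.card (Fin (M m k) × Fin k) : ℕ) : ℝ))
    (l := Real.logb 2 (m : ℝ)) (by exact_mod_cast hm)
    (by exact_mod_cast hk) hc' hw' hv' (card_T (by omega) hk1) (logb_m hk (by omega) hk2) hl0 hs0
    hL hg h

end Pool.Agent.Q330.WF.Tri
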